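import Pool.Agent.K.MP_27e7ce_al.C0

namespace Pool.Agent.Results.MP_27e7ce_al.AllGens

open Pool.Agent.P.MP_27e7ce_al

theorem result (k : ℕ) (hk : 2 ≤ k) (S : Finset (PresentedGroup (bsRel k)))
    (hS : Subgroup.closure (S : Set (PresentedGroup (bsRel k))) = ⊤) :
    Transcendental (Polynomial ℚ) (conjGrowthSeries (S : Set (PresentedGroup (bsRel k)))) :=
  Pool.Agent.P.MP_27e7ce_al.main k hk S hS

end Pool.Agent.Results.MP_27e7ce_al.AllGens
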